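import Pool.Agent.Q169.Cusp.Cones

/-!
# Inscribed squares in Jordan curves with corners and cusps

A Jordan curve with one-sided tangents of any kind (arbitrary corners and cusps) contains the vertices
of a square. More generally this holds if at every parameter the curve is locally a graph over a
foliation of class `C^{1,1}`, or the chords on either side of the parameter make angles of at most 15
degrees with some direction depending on the side, or both arcs that issue from the point have chords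
making angles of at most 30 degrees with one and the same direction.
-/

set_option autoImplicit false

namespace Pool.Agent.Results.MP_5a3ebe_gt.CornersAndCusps

open Set Filter Topology

/-- The curve `c` contains the vertices of a square. -/
def HasSquare (c : ℝ → ℂ) : Prop := ∃ z w : ℂ, w ≠ 0 ∧ z ∈ range c ∧ z + w ∈ range c ∧
  z + w + Complex.I * w ∈ range c ∧ z + Complex.I * w ∈ range c

/-- Near the parameter `τ` the curve is a graph over a foliation: there is a real function `φ` of class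
`C^{1,1}` near the point `c τ`, with nonzero differential there, such that `φ ∘ c` is nondecreasing
near `τ`. -/
def LocalGraphAt (c : ℝ → ℂ) (τ : ℝ) : Prop := ∃ φ : ℂ → ℝ, ∃ U ∈ 𝓝 (c τ), ∃ K : NNReal,
  (∀ z ∈ U, DifferentiableAt ℝ φ z) ∧ LipschitzOnWith K (fderiv ℝ φ) U ∧ fderiv ℝ φ (c τ) ≠ 0 ∧
  ∃ ε > 0, MonotoneOn (fun t => φ (c t)) (Ioo (τ - ε) (τ + ε))

/-- The vector `k` makes an angle of at most `arctan κ` with the direction `v` (or is `0`). -/
def InCone (κ : ℝ) (v k : ℂ) : Prop :=
  |((starRingEnd ℂ) v * k).im| ≤ κ * ((starRingEnd ℂ) v * k).re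

/-- Near the parameter `τ`, the chords on the right of `τ` make angles of at most 15 degrees with a
direction `v`, those on the left of `τ` with a direction `v'` (`tan 15° = 2 - √3`). The directions
are arbitrary; for `v' = -v` the curve turns back at `τ`. -/
def OneSidedConesAt (c : ℝ → ℂ) (τ : ℝ) : Prop := ∃ v v' : ℂ, v ≠ 0 ∧ v' ≠ 0 ∧ ∃ δ > 0,
  (∀ s t, τ ≤ s → s ≤ t → t ≤ τ + δ → InCone (2 - √3) v (c t - c s)) ∧
  (∀ s t, τ - δ ≤ s → s ≤ t → t ≤ τ → InCone (2 - √3) v' (c t - c s))

/-- Near the parameter `τ`, the chords of the two arcs that issue from the point `c τ`, oriented away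
from this point, make angles of at most 30 degrees with one and the same direction `e`
(`tan 30° = 1 / √3`): a cusp or a narrow corner with Lipschitz sides. -/
def CommonConeAt (c : ℝ → ℂ) (τ : ℝ) : Prop := ∃ e : ℂ, e ≠ 0 ∧ ∃ δ > 0,
  (∀ s t, τ ≤ s → s ≤ t → t ≤ τ + δ → InCone (1 / √3) e (c t - c s)) ∧
  (∀ s t, τ - δ ≤ s → s ≤ t → t ≤ τ → InCone (1 / √3) e (c s - c t))

/-- 1. Let `c` (continuous, of period `1`, injective on `[0, 1)`) parametrise a Jordan curve and suppose
that every parameter `τ` satisfies at least one of the conditions `LocalGraphAt`, `OneSidedConesAt`,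
`CommonConeAt`. Then the curve contains the vertices of a square.

2. Let `c` parametrise a Jordan curve, let `S` be a countable set outside of which `c` is
differentiable, and suppose that at every parameter `τ` the derivative `c'(t)`, `t ∉ S`, has a limit
`v ≠ 0` as `t → τ` from the right and a limit `v' ≠ 0` as `t → τ` from the left (so corners of any
angle and cusps, `v' = - r v` with `r > 0`, are allowed, at any number of parameters). Then the curve
contains the vertices of a square. -/
theorem result :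
    (∀ c : ℝ → ℂ, Continuous c → (∀ t, c (t + 1) = c t) → InjOn c (Ico 0 1) →
      (∀ τ, LocalGraphAt c τ ∨ OneSidedConesAt c τ ∨ CommonConeAt c τ) → HasSquare c) ∧
    (∀ c : ℝ → ℂ, Continuous c → (∀ t, c (t + 1) = c t) → InjOn c (Ico 0 1) →
      ∀ S : Set ℝ, S.Countable → (∀ t, t ∉ S → DifferentiableAt ℝ c t) →
      (∀ τ, (∃ v : ℂ, v ≠ 0 ∧ Tendsto (deriv c) (𝓝[Ioi τ \ S] τ) (𝓝 v)) ∧
        (∃ v' : ℂ, v' ≠ 0 ∧ Tendsto (deriv c) (𝓝[Iio τ \ S] τ) (𝓝 v'))) → HasSquare c) := by
  have h3 : (√3) ^ 2 = 3 := Real.sq_sqrt (by norm_num)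
  have h30 : 0 < √3 := Real.sqrt_pos.2 (by norm_num)
  have hb1 : √3 < 2 := by nlinarith
  have hb2 : 1 < √3 := by nlinarith
  have main : ∀ c : ℝ → ℂ, Continuous c → (∀ t, c (t + 1) = c t) → InjOn c (Ico 0 1) →
      (∀ τ, LocalGraphAt c τ ∨ OneSidedConesAt c τ ∨ CommonConeAt c τ) → HasSquare c := by
    intro c hc hper hinj H
    have J : H145R2.TSq.Jor c := by
      refine ⟨hc, hper, ?_⟩
      have hfr : ∀ s, c s = c (Int.fract s) := by
        intro s
        have hperz : Function.Periodic c 1 := hper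
        have := hperz.sub_zsmul_eq (x := s) ⌊s⌋
        rw [← this]
        congr 1
        show s - ⌊s⌋ • (1:ℝ) = s - ⌊s⌋
        rw [zsmul_eq_mul, mul_one]
      intro s t hst
      rw [hfr s, hfr t] at hst
      have h := hinj ⟨Int.fract_nonneg s, Int.fract_lt_one s⟩
        ⟨Int.fract_nonneg t, Int.fract_lt_one t⟩ hst
      refine ⟨⌊s⌋ - ⌊t⌋, ?_⟩
      have h1 := Int.self_sub_floor s
      have h2 := Int.self_sub_floor t
      push_cast
      linarith
    have hL : 3 * (1 / √3) ^ 2 ≤ 1 := by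
      rw [div_pow, h3]; norm_num
    have hL0 : 0 < 1 / √3 := by positivity
    have hκL : 2 * (2 - √3) ≤ 1 / √3 * (1 - (2 - √3) ^ 2) := by
      have e : 1 - (2 - √3) ^ 2 = √3 * (4 - 2 * √3) := by nlinarith
      rw [e, ← mul_assoc, one_div, inv_mul_cancel₀ h30.ne']
      linarith
    refine Q169.Cusp.main_cusp J fun τ => ?_
    rcases H τ with h | h | h
    · exact Or.inl h
    · exact Q169.Cusp.oneCones_cases (by linarith) (by linarith) hL0 hL hκL h
    · right
      obtain ⟨e, he, δ, hδ, k1, k2⟩ := h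
      have md := min_le_left δ (1/4)
      refine ⟨1 / √3, e / (‖e‖ : ℂ), min δ (1 / 4), hL0, hL, Q169.Cusp.norm_unit he,
        lt_min hδ (by norm_num), min_le_right _ _, ?_, ?_⟩
      · intro s t a b d
        exact Q169.Cusp.cone_normalize he (k1 s t a b (by linarith))
      · intro s t a b d
        exact Q169.Cusp.cone_normalize he (k2 s t (by linarith) b d)
  refine ⟨main, ?_⟩
  intro c hc hper hinj S hS hd H
  refine main c hc hper hinj fun τ => Or.inr (Or.inl ?_)
  obtain ⟨⟨v, hv, hvt⟩, ⟨v', hv', hvt'⟩⟩ := H τ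
  obtain ⟨κ, hκ⟩ : ∃ κ, κ = 2 - √3 := ⟨_, rfl⟩
  have κ0 : 0 < κ := by linarith
  have hr : ∀ v : ℂ, v ≠ 0 → 0 < κ / (1 + κ) * ‖v‖ := fun v hv => by
    have := norm_pos_iff.2 hv
    positivity
  have e1 : ∃ δ > 0, ∀ t ∈ Ioo τ (τ + δ), t ∉ S → ‖deriv c t - v‖ ≤ κ / (1 + κ) * ‖v‖ := by
    have := hvt.eventually (Metric.closedBall_mem_nhds v (hr v hv))
    rw [eventually_nhdsWithin_iff, Metric.eventually_nhds_iff] at this
    obtain ⟨δ, hδ, h⟩ := this
    refine ⟨δ, hδ, fun t ht htS => ?_⟩
    have := h (y := t) (by rw [Real.dist_eq, abs_lt]; constructor <;> linarith [ht.1, ht.2])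
      ⟨ht.1, htS⟩
    rwa [dist_eq_norm] at this
  have e2 : ∃ δ > 0, ∀ t ∈ Ioo (τ - δ) τ, t ∉ S → ‖deriv c t - v'‖ ≤ κ / (1 + κ) * ‖v'‖ := by
    have := hvt'.eventually (Metric.closedBall_mem_nhds v' (hr v' hv'))
    rw [eventually_nhdsWithin_iff, Metric.eventually_nhds_iff] at this
    obtain ⟨δ, hδ, h⟩ := this
    refine ⟨δ, hδ, fun t ht htS => ?_⟩
    have := h (y := t) (by rw [Real.dist_eq, abs_lt]; constructor <;> linarith [ht.1, ht.2])
      ⟨ht.2, htS⟩
    rwa [dist_eq_norm] at this
  obtain ⟨δ1, hδ1, d1⟩ := e1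
  obtain ⟨δ2, hδ2, d2⟩ := e2
  refine ⟨v, v', hv, hv', min δ1 δ2, lt_min hδ1 hδ2, ?_, ?_⟩
  · intro s t a b d
    have := min_le_left δ1 δ2
    show |((starRingEnd ℂ) v * (c t - c s)).im| ≤ (2 - √3) * ((starRingEnd ℂ) v * (c t - c s)).re
    rw [← hκ]
    exact Q169.Cusp.cone_of_deriv hc hS hd κ0 (a := τ) (b := τ + δ1) hv d1 a b (by linarith)
  · intro s t a b d
    have := min_le_right δ1 δ2
    show |((starRingEnd ℂ) v' * (c t - c s)).im| ≤ (2 - √3) * ((starRingEnd ℂ) v' * (c t - c s)).re
    rw [← hκ]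
    exact Q169.Cusp.cone_of_deriv hc hS hd κ0 (a := τ - δ2) (b := τ) hv' d2 (by linarith) b d

end Pool.Agent.Results.MP_5a3ebe_gt.CornersAndCusps
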