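import Pool.Agent.Q218.SQ.Deriv

/-!
# Inscribed squares from a pointwise condition on arcs

No uniformity in the point and no regularity of the curve is assumed: every point of the Jordan
curve is only asked to lie inside one arc `AB`, as large as one likes, such that the arcs from `B`
to the points before the given point, and from `A` to the points after it, are shorter than
`1 + √2` times their chords.
-/

namespace Pool.Agent.Results.MP_5a3ebe_gt.PointwiseArcs

open Q218.SQ Q150.Peg Set Topology

/-- 1. A Jordan curve without inscribed squares has, for each of the four kinds `(κ, σ)` of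
isosceles right triangles, a point `c b` which is bad at all scales: for every arc `c [α, β]` around
it and every `ε > 0` there is a chain of finitely many adjacent hooked arcs that goes from `c β`
down to a point of `c [α, b + ε]`, or one that goes from `c α` up to a point of `c [b - ε, β]`.
2. If every point `c b` of a Jordan curve is inside an arc `c [α, β]` such that all arcs `c [x, β]`,
`α ≤ x ≤ b`, and `c [α, y]`, `b ≤ y ≤ β`, have length less than `1 + √2` times the distance of
their end points, or has a neighbourhood with the three-point condition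
`|P - V| + |V - Q| < (1 + √2) |P - Q|`, then the curve contains the vertices of a square.
3. This is so if `c` has one-sided derivatives `v`, `w` at every point `b` and is Lipschitz near `b`
with a constant smaller than `1 + √2` times the distance of `0` to the segment `[v, w]`.
4. In particular it is so if `c` is differentiable at every point and, near every point `b`, its
speed is at most a constant smaller than `1 + √2` times the speed at `b` (for instance if the speed
is continuous and never zero; the direction of the tangent need not be continuous). -/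
theorem result :
    (∀ c : ℝ → ℂ, IsJordan c → ¬ HasSquare c → ∀ κ : ℂ, κ = Complex.I ∨ κ = -Complex.I →
      ∀ σ : ℝ, σ = 1 ∨ σ = -1 → ∃ b : ℝ, ∀ α β ε : ℝ, α < b → b < β → β < α + 1 → 0 < ε →
        (∃ x, α ≤ x ∧ x ≤ b + ε ∧ Chain c κ σ x β) ∨
        ∃ y, b - ε ≤ y ∧ y ≤ β ∧ Chain c κ σ α y) ∧
    (∀ c : ℝ → ℂ, IsJordan c → (∀ b, GoodArc c b ∨ LocalThreePoint c b) → HasSquare c) ∧
    (∀ c : ℝ → ℂ, IsJordan c →
      (∀ b, ∃ v w : ℂ, ∃ K ε : ℝ, 0 < ε ∧ HasDerivWithinAt c v (Iic b) b ∧
        HasDerivWithinAt c w (Ici b) b ∧ (∀ z ∈ segment ℝ v w, K < (1 + √2) * ‖z‖) ∧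
        ∀ x y, b - ε < x → x ≤ y → y < b + ε → ‖c y - c x‖ ≤ K * (y - x)) → HasSquare c) ∧
    (∀ c : ℝ → ℂ, IsJordan c → Differentiable ℝ c →
      (∀ b, ∃ K < (1 + √2) * ‖deriv c b‖, ∀ᶠ t in 𝓝 b, ‖deriv c t‖ ≤ K) → HasSquare c) :=
  ⟨fun _ hJ hno _ hκ _ hσ => principle hJ hno hκ hσ,
    fun _ hJ h => squares_pointwise hJ h,
    fun _ hJ h => squares_oneSided hJ h,
    fun _ hJ hd h => squares_deriv hJ hd h⟩

end Pool.Agent.Results.MP_5a3ebe_gt.PointwiseArcs
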