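import Mathlib
import Pool.Agent.Q190.IPE

set_option autoImplicit false

/-!
# Jordan curves without inscribed squares form a sigma-porous set

Let `JordanMap` be the space of all parametrised Jordan curves (injective continuous maps of the
circle to the plane) with the uniform distance. It is a `G_δ` set of a complete metric space, hence
a Baire space. Outside a countable union of lower porous sets (in particular for all curves of a
residual, hence dense, set) every nonempty open part of the curve contains arbitrarily small similar
copies of EVERY set of four points of the plane, in particular the vertices of squares.

Four is the natural number here: the similarities form a four-dimensional group, and four conditions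
have to be satisfied.

Outline. Let `γ` be any Jordan curve and `P = γ t₀`. A strong swirl about `P` in a disc of radius `r`
(a homeomorphism of the plane that moves no point by more than `2 r`) makes `γ` cross every window at
distance between `r / 4` and `3 r / 4` from `P` almost along the circle about `P`. Local rotations
about the four vertices of a copy of `q` of size comparable to `r` turn these crossings into
prescribed directions, in which no infinitesimal similarity moves all the four vertices. By the
theorem of Poincaré and Miranda every curve at distance less than `c r` from the new curve contains
similar copies of all four-point sets near `q`, where `c` depends on `q` only.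
-/

namespace Pool.Agent.Results.MP_5a3ebe_gt.PorousExceptions

open Set Q190.IP

theorem result :
    -- the exceptional curves lie in a countable union of lower porous sets
    (∃ S : Set (Set JordanMap), S.Countable ∧ (∀ A ∈ S, LowerPorous A) ∧
      ∀ γ : JordanMap, γ ∉ ⋃₀ S → InscribesEverywhere γ) ∧
    -- the space of Jordan curves is a `G_δ` set of a complete space and a Baire space
    IsGδ {γ : C(Circle, ℂ) | Function.Injective γ} ∧ BaireSpace JordanMap ∧
    -- the typical Jordan curve contains everywhere small copies of all four-point sets
    (∀ᶠ γ in residual JordanMap, InscribesEverywhere γ) ∧
    Dense {γ : JordanMap | InscribesEverywhere γ} ∧
    -- in particular every nonempty open part contains the four vertices of a square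
    ∀ γ : JordanMap, InscribesEverywhere γ → ∀ U : Set Circle, IsOpen U → U.Nonempty →
      ∃ z w : ℂ, w ≠ 0 ∧ z ∈ γ.1 '' U ∧ z + w ∈ γ.1 '' U ∧
        z + w + Complex.I * w ∈ γ.1 '' U ∧ z + Complex.I * w ∈ γ.1 '' U :=
  ⟨porous, isGδ_injective, inferInstance, generic, dense_of_mem_residual generic,
    fun _ h _ hU hne => square_of_everywhere h hU hne⟩

end Pool.Agent.Results.MP_5a3ebe_gt.PorousExceptions
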