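import Pool.Agent.Q150.PegB

/-!
# Inscribed squares and the three-point condition at one scale

A Jordan curve (no regularity) which satisfies the three-point condition
`|P - V| + |V - Q| < (1 + √2) |P - Q|` for the arcs of one single diameter `r` (`P`, `Q` the end
points, `V` between them) contains the vertices of a square, and so do all Jordan curves that are
uniformly close to it. In particular this holds for quasicircles and chord-arc curves whose local
constant is smaller than `1 + √2`.
-/

namespace Pool.Agent.Results.MP_5a3ebe_gt.ThreePointCondition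

open Q150.Peg Set

/-- 1. Let `c` parametrise a Jordan curve without inscribed squares. Then for every scale `F` (for
instance arcs of given diameter, or of given parameter length) and for each of the four kinds of
triangles there is an arc at this scale with end points `P`, `Q` and a point `V` of this arc such
that `P`, `Q`, `V` form an isosceles right triangle of this kind, with right angle at `P` or `Q` and
`|V - P| = |Q - P|` or `|V - Q| = |P - Q|`.
2. If at one scale a Jordan curve has no such arcs of one handedness `κ`, then all Jordan curves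
uniformly close to it (itself included) contain the vertices of a square.
3. This holds if, for one `r` between `0` and the diameter of the curve, the three-point condition
`|P - V| + |V - Q| < (1 + √2) |P - Q|` is satisfied by the arcs of diameter exactly `r`.
4. It holds if the three-point condition is satisfied by all sufficiently short arcs.
5. It holds if all sufficiently short arcs have length less than `(1 + √2)` times the distance of
their end points. -/
theorem result :
    (∀ c : ℝ → ℂ, IsJordan c → ¬ HasSquare c → ∀ F : ℝ → ℝ → ℝ, IsScale F →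
      ∀ κ : ℂ, κ = Complex.I ∨ κ = -Complex.I → ∀ σ : ℝ, σ = 1 ∨ σ = -1 →
      ∃ x u y : ℝ, x < u ∧ u < y ∧ y < x + 1 ∧ F x y = 0 ∧
        (Tri c κ σ x y u ∨ Tri c κ σ y x u)) ∧
    (∀ c : ℝ → ℂ, IsJordan c → ∀ F : ℝ → ℝ → ℝ, IsScale F →
      ∀ κ : ℂ, κ = Complex.I ∨ κ = -Complex.I → HookFree c κ F → SquaresNearby c) ∧
    (∀ c : ℝ → ℂ, IsJordan c → ∀ r : ℝ, 0 < r → r < Metric.diam (range c) →
      (∀ x u y : ℝ, x < u → u < y → y < x + 1 → Metric.diam (c '' Icc x y) = r →
        ThreePoint c x u y) → SquaresNearby c) ∧
    (∀ c : ℝ → ℂ, IsJordan c → ∀ ε : ℝ, 0 < ε →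
      (∀ x u y : ℝ, x < u → u < y → y < x + ε → ThreePoint c x u y) → SquaresNearby c) ∧
    (∀ c : ℝ → ℂ, IsJordan c → ∀ ε : ℝ, 0 < ε →
      (∀ x y : ℝ, x < y → y < x + ε →
        eVariationOn c (Icc x y) < ENNReal.ofReal ((1 + √2) * ‖c y - c x‖)) →
      SquaresNearby c) :=
  ⟨fun _ hJ hno _ hF _ hκ _ hσ => hooks hJ hno hF hκ hσ,
    fun _ hJ _ hF _ hκ h => squares_nearby hJ hF hκ h,
    fun _ hJ _ hr hr1 h => squares_diam hJ hr hr1 h,
    fun _ hJ _ hε h => squares_local hJ hε h,
    fun _ hJ _ hε h => squares_chordArc hJ hε h⟩

end Pool.Agent.Results.MP_5a3ebe_gt.ThreePointCondition
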